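import Pool.Agent.Helper11.SY.Df

/-!
MP_e1889a_ag: functions of low valuation on a symplectic germ: definitions.
-/

set_option autoImplicit false

namespace Pool.Agent.Helper88.LW

open IsLocalRing Pool.Agent.Helper11.SY

noncomputable section

variable {R : Type} [CommRing R] [Algebra ℂ R] [IsLocalRing R]

/-- the log discrepancy of `u` is at most `c` -/
def LDLe {n : ℕ} (S : Symp R n) (u : CVal R) (c : ℝ) : Prop :=
  ∀ f : Fin (2 * n) → R, ∑ i, u.v (f i) ≤ u.v (S.th f) + (c : WithTop ℝ)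

/-- `w`, with log discrepancy `A`, is the minimizer of the normalized volume, unique up to scaling -/
structure IsMin {n : ℕ} (S : Symp R n) (w : CVal R) (A : ℝ) : Prop where
  disc : LogDisc S w A
  vpos : 0 < w.vol (2 * n)
  vfin : w.vol (2 * n) ≠ ⊤
  min : ∀ (u : CVal R) (c : ℝ), 0 < c → LDLe S u c → nvol n w A ≤ nvol n u c
  unique : ∀ (u : CVal R) (c : ℝ), 0 < c → LDLe S u c → nvol n u c = nvol n w A →
    ∃ r : ℝ, 0 < r ∧ ∀ (f : R) (x : ℝ), w.v f = (x : WithTop ℝ) → u.v f = ((r * x : ℝ) : WithTop ℝ)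

/-- `2 n - 2` functions of valuation at most `a` such that the bracket of degree `- a` is nondegenerate
on their initial forms: the determinant of `{f_i, f_j}` has the valuation `∑ (v f_i + v f_j - a)` (the
sum over the rows). -/
def LowNondeg {n : ℕ} (S : Symp R n) (w : CVal R) (a : ℝ) : Prop :=
  ∃ F : Fin (2 * n - 2) → R, (∀ i, w.v (F i) ≤ (a : WithTop ℝ)) ∧
    (Matrix.of fun i j => S.br (F i) (F j)).det ≠ 0 ∧
    w.v (Matrix.of fun i j => S.br (F i) (F j)).det + (((2 * n - 2 : ℕ) * a : ℝ) : WithTop ℝ) ≤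
      2 • ∑ i, w.v (F i)

/-- `2 n - 1` functions `F i`, `i ≠ j`, of valuation at most `a` whose initial forms are algebraically
independent (in the form of `LogDisc.eq`: `dF_1 ∧ .. ∧ dF_2n` has the valuation `∑ v (F i)` for some
choice of the remaining function `F j`). -/
def LowIndep {n : ℕ} (S : Symp R n) (w : CVal R) (A a : ℝ) : Prop :=
  ∃ (F : Fin (2 * n) → R) (j : Fin (2 * n)), (∀ i, i ≠ j → w.v (F i) ≤ (a : WithTop ℝ)) ∧
    S.th F ≠ 0 ∧ w.v (S.th F) + (A : WithTop ℝ) = ∑ i, w.v (F i)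

end

end Pool.Agent.Helper88.LW
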