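import Pool.Agent.Helper11.SY.Ja
import Pool.Agent.Helper88.T1.Clo
import Pool.Agent.Helper88.LW.Defs

/-!
MP_e1889a_ag: functions of low valuation on a symplectic germ: lemmas.
-/

set_option autoImplicit false

namespace Pool.Agent.Helper88.LW

open IsLocalRing Pool.Agent.Helper11.SY Pool.Agent.Helper88.T1

noncomputable section

variable {R : Type} [CommRing R] [Algebra ℂ R]

variable [IsDomain R] [IsLocalRing R]

theorem IsMin.toMinimizer {n : ℕ} {S : Symp R n} {w : CVal R} {A : ℝ} (h : IsMin S w A) :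
    IsMinimizer S w A :=
  ⟨h.disc, fun w' A' h' => h.min w' A' h'.pos h'.le, fun w' A' h' e => h.unique w' A' h'.pos h'.le e⟩

theorem IsMin.toMinLe {n : ℕ} {S : Symp R n} {w : CVal R} {A : ℝ} (h : IsMin S w A) :
    IsMinLe S.th w A :=
  ⟨h.disc.pos, h.disc.le, h.vpos, h.vfin, fun w' A' hA' h' => h.min w' A' hA' h'⟩

theorem isGen {n : ℕ} (S : Symp R n) : IsGen S.th := ⟨S.der, S.gen⟩

theorem half_add {w : CVal R} {b a : ℝ} (hab : b + b = a) {x y z : WithTop ℝ}
    (hx : x ≤ (b : WithTop ℝ)) (hy : y ≤ z + (b : WithTop ℝ)) : x + y ≤ z + (a : WithTop ℝ) := by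
  have h1 := add_le_add hx hy
  refine h1.trans (le_of_eq ?_)
  rw [← hab, WithTop.coe_add, add_comm (b : WithTop ℝ) (z + (b : WithTop ℝ)), add_assoc]

/-- all functions of valuation at most `a = 2 b` are good, if all derivations lose at most `b` and those
which preserve the maximal ideal lose nothing -/
theorem good_low {n : ℕ} {S : Symp R n} {w : CVal R} {a b : ℝ} (hab : b + b = a)
    (h0 : ∀ f, Fixes S f → ∀ g, w.v g ≤ w.v (S.br f g))
    (h1 : ∀ f g : R, w.v g ≤ w.v (S.br f g) + (b : WithTop ℝ)) {f : R}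
    (hf : w.v f ≤ (a : WithTop ℝ)) (g : R) : Good S w a f g := by
  by_cases hfix : Fixes S f
  · exact good_of_small (h0 f hfix) hf g
  · unfold Fixes at hfix
    push Not at hfix
    obtain ⟨g0, -, hg1⟩ := hfix
    have h2 : w.v (S.br f g0) = 0 := by
      rcases (w.nonneg (S.br f g0)).eq_or_lt with h | h
      · exact h.symm
      · exact absurd ((w.pos _).1 h) hg1
    have h3 : w.v f ≤ (b : WithTop ℝ) := by
      have h4 := h1 g0 f
      rw [br_skew, AddValuation.map_neg, h2, zero_add] at h4
      exact h4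
    exact half_add (w := w) hab h3 (h1 f g)

theorem good_lowSpan {n : ℕ} {S : Symp R n} {w : CVal R} {a : ℝ}
    (hlow : ∀ f, w.v f ≤ (a : WithTop ℝ) → ∀ g, Good S w a f g) {r : WithTop ℝ} {p : R}
    (hp : p ∈ lowSpan w a r) (g : R) : r + w.v g ≤ w.v (S.br p g) + (a : WithTop ℝ) := by
  have hprod : ∀ l : List R, (∀ x ∈ l, x ∈ maximalIdeal R ∧ w.v x ≤ (a : WithTop ℝ)) →
      (l.map fun x => w.v x).sum + w.v g ≤ w.v (S.br l.prod g) + (a : WithTop ℝ) := by
    intro l
    induction l with
    | nil =>
      intro _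
      have h1 : S.br (1 : R) g = 0 := by
        rw [br_skew, Derivation.map_one_eq_zero, neg_zero]
      rw [List.prod_nil, h1, w.v.map_zero, top_add]
      exact le_top
    | cons x l ih =>
      intro hl
      have hx := hl x List.mem_cons_self
      have h1 := ih fun y hy => hl y (List.mem_cons_of_mem _ hy)
      rw [List.prod_cons, List.map_cons, List.sum_cons]
      have h2 : S.br (x * l.prod) g = x * S.br l.prod g + l.prod * S.br x g := by
        rw [br_skew S (x * l.prod) g, Derivation.leibniz, br_skew S g l.prod, br_skew S g x]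
        simp only [smul_eq_mul]
        ring
      have h3 : w.v l.prod = (l.map fun x => w.v x).sum := by
        clear h1 h2 ih hl hx
        induction l with
        | nil => rw [List.prod_nil, List.map_nil, List.sum_nil, w.v.map_one]
        | cons y l ih => rw [List.prod_cons, List.map_cons, List.sum_cons, w.v.map_mul, ih]
      have h4 : w.v x + (l.map fun x => w.v x).sum + w.v g ≤
          w.v (x * S.br l.prod g) + (a : WithTop ℝ) := by
        rw [w.v.map_mul, add_assoc, add_assoc]
        exact add_le_add le_rfl h1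
      have h5 : w.v x + (l.map fun x => w.v x).sum + w.v g ≤
          w.v (l.prod * S.br x g) + (a : WithTop ℝ) := by
        rw [w.v.map_mul, h3, add_comm (w.v x), add_assoc, add_assoc]
        exact add_le_add le_rfl (hlow x hx.2 g)
      rw [h2]
      rcases min_le_iff.1 (w.v.map_add (x * S.br l.prod g) (l.prod * S.br x g)) with h6 | h6
      · exact h4.trans (add_le_add h6 le_rfl)
      · exact h5.trans (add_le_add h6 le_rfl)
  refine Submodule.span_induction (p := fun p _ => r + w.v g ≤ w.v (S.br p g) + (a : WithTop ℝ))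
    ?_ ?_ ?_ ?_ hp
  · rintro _ ⟨l, hl, rfl, hr⟩
    exact (add_le_add hr le_rfl).trans (hprod l hl)
  · rw [map_zero S.br, Derivation.zero_apply, w.v.map_zero, top_add]
    exact le_top
  · intro x y _ _ hx hy
    rw [br_add_left]
    rcases min_le_iff.1 (w.v.map_add (S.br x g) (S.br y g)) with h6 | h6
    · exact hx.trans (add_le_add h6 le_rfl)
    · exact hy.trans (add_le_add h6 le_rfl)
  · intro c x _ hx
    rw [map_smul S.br, Derivation.smul_apply, Algebra.smul_def, w.v.map_mul]
    refine hx.trans (add_le_add ?_ le_rfl)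
    exact le_add_of_nonneg_left (w.nonneg _)

/-- If the graded ring is generated in degrees `≤ a`, the bracket has order `≥ - a`. -/
theorem good_of_gen [IsNoetherianRing R]
    (hres : ∀ f : R, ∃ c : ℂ, f - algebraMap ℂ R c ∈ maximalIdeal R) {n : ℕ} {S : Symp R n}
    {w : CVal R} {a b : ℝ} (hlow : ∀ f, w.v f ≤ (a : WithTop ℝ) → ∀ g, Good S w a f g)
    (h1 : ∀ f g : R, w.v g ≤ w.v (S.br f g) + (b : WithTop ℝ))
    (hgen : LowGen w a) : OrderGe S w a := by
  intro f g
  by_cases hf : f = 0
  · rw [hf, map_zero S.br, Derivation.zero_apply, w.v.map_zero, top_add, top_add]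
  by_cases hg0 : g = 0
  · rw [hg0, Derivation.map_zero, w.v.map_zero, top_add]
    exact le_top
  obtain ⟨α, hα⟩ := real_val w hf
  obtain ⟨β, hβ⟩ := real_val w hg0
  obtain ⟨p, hp, hr⟩ := approx hres hgen (α + β - a + b) f
  have h2 : S.br f g = S.br p g + S.br (f - p) g := by
    rw [← br_add_left, add_sub_cancel]
  have h3 := good_lowSpan hlow hp g
  have h4 : w.v f + w.v g ≤ w.v (S.br (f - p) g) + (a : WithTop ℝ) := by
    have h5 := hr.trans (h1 g (f - p))
    rw [br_skew S g (f - p), AddValuation.map_neg] at h5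
    rw [hα, hβ]
    by_cases h6 : w.v (S.br (f - p) g) = ⊤
    · rw [h6, top_add]
      exact le_top
    · obtain ⟨z, hz⟩ := WithTop.ne_top_iff_exists.1 h6
      rw [← hz, ← WithTop.coe_add, WithTop.coe_le_coe] at h5
      rw [← hz, ← WithTop.coe_add, ← WithTop.coe_add, WithTop.coe_le_coe]
      linarith
  rw [h2]
  rcases min_le_iff.1 (w.v.map_add (S.br p g) (S.br (f - p) g)) with h6 | h6
  · exact h3.trans (add_le_add h6 le_rfl)
  · exact h4.trans (add_le_add h6 le_rfl)

end

end Pool.Agent.Helper88.LW
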