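import Pool.Agent.Helper88.LW.Lem

/-!
# MP_e1889a_ag: functions of low valuation on a symplectic germ

`R` is the completed local ring of a symplectic germ `x ∈ X` of dimension `2 n`, `S` the Poisson bracket
of the symplectic form `ω` with its Pfaffian, `w` the minimizer of the normalized volume and `A` its log
discrepancy.

Meaning for Q1. `ω ^ n` generates the canonical module, so `w (ω ^ n) = A`, and the degeneration of `ω` is
a symplectic form on `X_0 = Spec (gr_w R)` iff `w (ω) = A / n` iff `w {f, g} ≥ w f + w g - A / n` for all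
`f, g ∈ R` (`OrderGe`); the bracket of degree `- A / n` on `gr_w R` is then inverse to it.
-/

set_option autoImplicit false

namespace Pool.Agent.Helper88.LW

open IsLocalRing Pool.Agent.Helper11.SY Pool.Agent.Helper88.T1

theorem main (R : Type) [CommRing R] [Algebra ℂ R] [IsDomain R] [IsLocalRing R]
    [IsNoetherianRing R] [IsAdicComplete (maximalIdeal R) R]
    (hres : ∀ f : R, ∃ c : ℂ, f - algebraMap ℂ R c ∈ maximalIdeal R)
    (n : ℕ) (hn : 1 ≤ n) (hdim : ringKrullDim R = ((2 * n : ℕ) : WithBot ℕ∞))
    (S : Symp R n) (w : CVal R) (A : ℝ) (hw : IsMin S w A) :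
    -- (1) the inequality of Q1 if one of the functions has valuation at most `A / n`
    (∀ f g : R, min (w.v f) (w.v g) ≤ ((A / n : ℝ) : WithTop ℝ) →
      w.v f + w.v g ≤ w.v (S.br f g) + ((A / n : ℝ) : WithTop ℝ)) ∧
    -- (2) `2 n - 1` functions of valuation at most `A / n` with independent initial forms
    (Pool.Agent.Helper88.LW.LowIndep S w A (A / n) → OrderGe S w (A / n)) ∧
    -- (3) `2 n - 2` functions of valuation at most `A / n` with nondegenerate brackets
    (LowNondeg S w (A / n) → OrderGe S w (A / n)) ∧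
    -- (4) generation in degrees at most `A / n`
    (LowGen w (A / n) → OrderGe S w (A / n)) ∧
    -- (5) derivations lower the minimizer by at most `A / 2 n`
    (∀ (D : Derivation ℂ R R) (f : R), w.v f ≤ w.v (D f) + ((A / (2 * n) : ℝ) : WithTop ℝ)) := by
  have hm : ∃ f ∈ maximalIdeal R, f ≠ 0 := by
    by_contra hcon
    push Not at hcon
    have h1 : maximalIdeal R = ⊥ := by
      rw [eq_bot_iff]
      intro f hf
      exact hcon f hf
    have h2 : IsField R := isField_iff_maximalIdeal_eq.2 h1
    rw [ringKrullDim_eq_zero_of_isField h2] at hdim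
    have h3 : ((0 : ℕ) : WithBot ℕ∞) = ((2 * n : ℕ) : WithBot ℕ∞) := hdim
    have h4 : (0 : ℕ) = 2 * n := by exact_mod_cast h3
    omega
  have hn0 : (n : ℝ) ≠ 0 := by
    have : n ≠ 0 := by omega
    exact_mod_cast this
  have h1 : ∀ (D : Derivation ℂ R R) (f : R),
      w.v f ≤ w.v (D f) + ((A / (2 * n) : ℝ) : WithTop ℝ) := by
    intro D f
    have h2 := derivation_bound R hres (2 * n) (by omega) hdim S.th (isGen S) w A hw.toMinLe D f
    have h3 : ((2 * n : ℕ) : ℝ) = 2 * n := by push_cast; ring
    rwa [h3] at h2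
  have hab : A / (2 * (n : ℝ)) + A / (2 * n) = A / n := by field_simp; norm_num
  have h0 : ∀ f, Fixes S f → ∀ g, w.v g ≤ w.v (S.br f g) := fun f hf g =>
    der_val hres w (fun σ f => inv_aut hw.toMinimizer hm σ f) (S.br f) hf g
  have hlow : ∀ f, w.v f ≤ ((A / n : ℝ) : WithTop ℝ) → ∀ g, Good S w (A / n) f g :=
    fun f hf g => good_low hab h0 (fun f g => h1 (S.br f) g) hf g
  refine ⟨?_, ?_, ?_, ?_, h1⟩
  · intro f g hfg
    rcases min_le_iff.1 hfg with h | h
    · exact hlow f h g
    · have h2 := hlow g h f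
      rw [Good, br_skew, AddValuation.map_neg] at h2
      rwa [add_comm]
  · rintro ⟨F, j, hF, hth, hval⟩ f g
    have hgood : ∀ i, i ≠ j → ∀ g, Good S w (A / n) (F i) g := fun i hi g => hlow _ (hF i hi) g
    obtain ⟨e, hej, hdet0, hdet⟩ := rank_of_indep hn F j hgood hth hval.symm
    exact good_all hn hw.disc (fun i => F (e i)) (fun i g => hgood _ (hej i) g) hdet0 hdet f g
  · rintro ⟨F, hF, hdet0, hdet⟩ f g
    exact good_all hn hw.disc F (fun i g => hlow _ (hF i) g) hdet0 hdet f g
  · exact fun hgen => good_of_gen hres hlow (fun f g => h1 (S.br f) g) hgen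

end Pool.Agent.Helper88.LW
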